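import Mathlib

set_option autoImplicit false

namespace Pool.Agent.H.MP_b7b1cf_co

variable {E : Type}

def cmp (X Y : E → SignType) : E → SignType := fun e => if X e = 0 then Y e else X e

def CompC (C : Set (E → SignType)) : Prop := ∀ X ∈ C, ∀ Y ∈ C, cmp X Y ∈ C

def ElimC (C : Set (E → SignType)) : Prop := ∀ X ∈ C, ∀ Y ∈ C, ∀ e, X e ≠ 0 → X e = -Y e →
  ∃ Z ∈ C, Z e = 0 ∧ ∀ f, (X f = 0 ∨ X f ≠ -Y f) → Z f = cmp X Y f

def Orth (X Y : E → SignType) : Prop :=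
  (∀ e, X e * Y e = 0) ∨ ∃ e f, X e * Y e = 1 ∧ X f * Y f = -1

lemma Orth.symm {X Y : E → SignType} (h : Orth X Y) : Orth Y X := by
  simpa only [Orth, mul_comm] using h

lemma Orth.zero {X Y : E → SignType} (h : Orth X Y) (σ : SignType) (hσ : σ ≠ 0)
    (h1 : ∀ e, X e * Y e ≠ σ) (e : E) : X e * Y e = 0 := by
  rcases h with h | ⟨a, b, h2, h3⟩
  · exact h e
  · cases σ
    · exact absurd rfl hσ
    · exact absurd h3 (h1 b)
    · exact absurd h2 (h1 a)

lemma orth_of {X Y : E → SignType}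
    (h : ∀ σ : SignType, σ ≠ 0 → (∀ e, X e * Y e ≠ σ) → ∀ e, X e * Y e = 0) : Orth X Y := by
  by_cases h1 : ∃ e, X e * Y e = 1
  · by_cases h2 : ∃ e, X e * Y e = -1
    · obtain ⟨a, ha⟩ := h1
      obtain ⟨b, hb⟩ := h2
      exact Or.inr ⟨a, b, ha, hb⟩
    · exact Or.inl (h (-1) (by decide) fun e he => h2 ⟨e, he⟩)
  · exact Or.inl (h 1 (by decide) fun e he => h1 ⟨e, he⟩)

lemma z0 {a : SignType} (h : a ≠ 0) : 0 ≠ -a := by revert h; cases a <;> decide

lemma zlem [DecidableEq E] (ω : E → SignType) (J : Finset E) : (∀ j ∈ J, ω j ≠ 0) → J.Nonempty →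
    ∀ C : Set (E → SignType), CompC C → ElimC C →
    (∀ j ∈ J, ∃ X ∈ C, X j = -ω j ∧ ∀ k ∈ J, k ≠ j → X k ≠ -ω k) →
    (∃ X ∈ C, ∀ k ∈ J, X k ≠ -ω k) ∨ ∃ X ∈ C, ∀ k ∈ J, X k = -ω k := by
  induction J using Finset.induction_on with
  | empty => intro _ h; simp at h
  | insert j J hj ih =>
    intro hω _ C hc he h
    obtain ⟨Xj, hXj, a1, a2⟩ := h j (Finset.mem_insert_self _ _)
    rcases J.eq_empty_or_nonempty with rfl | hne
    · exact Or.inr ⟨Xj, hXj, by simpa using a1⟩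
    by_cases hp : ∃ X ∈ C, ∀ k ∈ insert j J, X k ≠ -ω k
    · exact Or.inl hp
    right
    have hωj := hω j (Finset.mem_insert_self _ _)
    rcases ih (fun k hk => hω k (Finset.mem_insert_of_mem hk)) hne {Z | Z ∈ C ∧ Z j = 0}
      (fun X hX Y hY => ⟨hc X hX.1 Y hY.1, by simp [cmp, hX.2, hY.2]⟩)
      (fun X hX Y hY e h1 h2 => by
        obtain ⟨Z, hZ, b1, b2⟩ := he X hX.1 Y hY.1 e h1 h2
        exact ⟨Z, ⟨hZ, by rw [b2 j (Or.inl hX.2)]; simp [cmp, hX.2, hY.2]⟩, b1, b2⟩)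
      (fun i hi => by
        obtain ⟨X, hX, b1, b2⟩ := h i (Finset.mem_insert_of_mem hi)
        have hji : j ≠ i := fun e => hj (e ▸ hi)
        have : ∃ Z ∈ C, Z j = 0 ∧ ∀ k ∈ J, k ≠ i → Z k ≠ -ω k := by
          by_cases h0 : X j = 0
          · exact ⟨X, hX, h0, fun k hk => b2 k (Finset.mem_insert_of_mem hk)⟩
          · have b3 := b2 j (Finset.mem_insert_self _ _) hji
            obtain ⟨Z, hZ, c1, c2⟩ := he X hX Xj hXj j h0 (by
              rw [a1]; revert h0 b3 hωj; cases X j <;> cases ω j <;> decide)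
            refine ⟨Z, hZ, c1, fun k hk hki => ?_⟩
            have d1 := b2 k (Finset.mem_insert_of_mem hk) hki
            have d2 := a2 k (Finset.mem_insert_of_mem hk) (fun e => hj (e ▸ hk))
            have d3 := hω k (Finset.mem_insert_of_mem hk)
            rw [c2 k (by revert d1 d2 d3; cases X k <;> cases Xj k <;> cases ω k <;> decide), cmp]
            split_ifs <;> assumption
        obtain ⟨Z, hZ, c1, c2⟩ := this
        refine ⟨Z, ⟨hZ, c1⟩, ?_, c2⟩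
        by_contra h3
        refine hp ⟨Z, hZ, fun k hk => ?_⟩
        rcases Finset.mem_insert.1 hk with rfl | hk
        · rw [c1]; exact z0 hωj
        · by_cases hki : k = i
          · rwa [hki]
          · exact c2 k hk hki) with ⟨Z, hZ, b⟩ | ⟨Z, hZ, b⟩
    · refine absurd ⟨Z, hZ.1, fun k hk => ?_⟩ hp
      rcases Finset.mem_insert.1 hk with rfl | hk
      · rw [hZ.2]; exact z0 hωj
      · exact b k hk
    · refine ⟨_, hc Z hZ.1 Xj hXj, fun k hk => ?_⟩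
      rcases Finset.mem_insert.1 hk with rfl | hk
      · simp [cmp, hZ.2, a1]
      · have := hω k (Finset.mem_insert_of_mem hk)
        simp [cmp, b k hk, this]

section main
variable {ι : Type} [Fintype E] [DecidableEq E] (D : Set (ι → SignType)) (t s : E → ι)

lemma common (hc : CompC D) (hn : ∀ X ∈ D, -X ∈ D)
    (hf : ∀ e, ∃ X ∈ D, X (t e) = 1 ∧ ∀ f, f ≠ e → X (t f) = 0)
    (h : ∃ Z ∈ D, (∃ e, Z (t e) ≠ 0) ∧ ∀ e, Z (t e) ≠ 0 → Z (s e) = Z (t e)) :
    ∃ Z ∈ D, (∃ e, Z (t e) ≠ 0) ∧ ∀ e, Z (s e) = Z (t e) := by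
  obtain ⟨Z, hZ, h1, h2⟩ := h
  induction hm : (Finset.univ.filter fun e => Z (t e) = 0).card using Nat.strong_induction_on
    generalizing Z with
  | _ m ih =>
    by_cases h3 : ∀ e, Z (s e) = Z (t e)
    · exact ⟨Z, hZ, h1, h3⟩
    push Not at h3
    obtain ⟨e, he⟩ := h3
    have h4 : Z (t e) = 0 := by
      by_contra h5
      exact he (h2 e h5)
    obtain ⟨X, hX, a1, a2⟩ : ∃ X ∈ D, X (t e) = Z (s e) ∧ ∀ f, f ≠ e → X (t f) = 0 := by
      obtain ⟨X, hX, a1, a2⟩ := hf e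
      rw [h4] at he
      rcases hs : Z (s e) with _ | _ | _
      · exact absurd hs he
      · exact ⟨-X, hn X hX, by simp [a1], fun f hf => by simp [a2 f hf]⟩
      · exact ⟨X, hX, a1, a2⟩
    rw [h4] at he
    refine ih _ ?_ (cmp Z X) (hc Z hZ X hX) ⟨e, by simp [cmp, h4, a1, he]⟩ (fun f hf => ?_) rfl
    · rw [← hm]
      refine Finset.card_lt_card ⟨fun f hf => ?_, fun h5 => ?_⟩
      · simp only [Finset.mem_filter, Finset.mem_univ, true_and, cmp] at hf ⊢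
        split_ifs at hf <;> assumption
      · have := h5 (x := e) (by simp [h4])
        simp [cmp, h4, a1, he] at this
    · by_cases hfe : f = e
      · subst hfe; simp [cmp, h4, a1, he]
      · have : Z (t f) ≠ 0 := fun h6 => hf (by simp [cmp, h6, a2 f hfe])
        simp [cmp, this, h2 f this]

lemma star (hc : CompC D) (he : ElimC D) (hn : ∀ X ∈ D, -X ∈ D)
    (hf : ∀ e, ∃ X ∈ D, X (t e) = 1 ∧ ∀ f, f ≠ e → X (t f) = 0) (ω : E → SignType)
    (h : ¬ ∃ Z ∈ D, (∃ e, Z (t e) ≠ 0) ∧ ∀ e, Z (t e) ≠ 0 → Z (s e) = Z (t e)) (I : Finset E) :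
    (∀ e ∈ I, ω e ≠ 0) → I.Nonempty → ∃ Z ∈ D, (∃ e, Z (t e) ≠ 0) ∧ (∀ e, e ∉ I → Z (t e) = 0) ∧
      (∀ e ∈ I, Z (t e) ≠ -ω e) ∧ ∀ e ∈ I, Z (s e) ≠ ω e := by
  induction I using Finset.strongInduction with
  | H I ih =>
    intro hω hne
    by_contra hcon
    let G : (ι → SignType) → Prop := fun Z => Z ∈ D ∧ (∃ e, Z (t e) ≠ 0) ∧
      (∀ e, e ∉ I → Z (t e) = 0) ∧ ∀ e ∈ I, Z (t e) ≠ -ω e
    have hG : ∀ X Y Z, G X → G Y → Z ∈ D →
        (∀ f, (X (t f) = 0 ∨ X (t f) ≠ -Y (t f)) → Z (t f) = cmp X Y (t f)) → G Z := by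
      rintro X Y Z ⟨-, ⟨e, x1⟩, x2, x3⟩ ⟨-, -, y2, y3⟩ hZ h1
      have h2 : ∀ f, Z (t f) = cmp X Y (t f) := fun f => h1 f (by
        by_cases hf : f ∈ I
        · have d1 := x3 f hf
          have d2 := y3 f hf
          have d3 := hω f hf
          revert d1 d2 d3; cases X (t f) <;> cases Y (t f) <;> cases ω f <;> decide
        · exact Or.inl (x2 f hf))
      refine ⟨hZ, ⟨e, by simp [h2, cmp, x1]⟩, fun f hf => by simp [h2, cmp, x2 f hf, y2 f hf],
        fun f hf => ?_⟩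
      rw [h2, cmp]
      split_ifs
      · exact y3 f hf
      · exact x3 f hf
    rcases zlem (fun e => -ω e) I (by simpa using hω) hne {S | ∃ Z, G Z ∧ S = fun e => Z (s e)}
      (by
        rintro _ ⟨X, hX, rfl⟩ _ ⟨Y, hY, rfl⟩
        exact ⟨cmp X Y, hG X Y _ hX hY (hc X hX.1 Y hY.1) fun _ _ => rfl, rfl⟩)
      (by
        rintro _ ⟨X, hX, rfl⟩ _ ⟨Y, hY, rfl⟩ e h1 h2
        obtain ⟨Z, hZ, b1, b2⟩ := he X hX.1 Y hY.1 (s e) h1 h2
        exact ⟨_, ⟨Z, hG X Y Z hX hY hZ fun f => b2 _, rfl⟩, b1, fun f => b2 _⟩)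
      (fun j hj => by
        have : ∃ Z, G Z ∧ ∀ k ∈ I, k ≠ j → Z (s k) ≠ ω k := by
          rcases (I.erase j).eq_empty_or_nonempty with h0 | h0
          · have h1 : ∀ k ∈ I, k = j := fun k hk => by
              by_contra h2
              exact Finset.notMem_empty k (h0 ▸ Finset.mem_erase.2 ⟨h2, hk⟩)
            obtain ⟨X, hX, a1, a2⟩ : ∃ X ∈ D, X (t j) = ω j ∧ ∀ f, f ≠ j → X (t f) = 0 := by
              obtain ⟨X, hX, a1, a2⟩ := hf j
              rcases hs : ω j with _ | _ | _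
              · exact absurd hs (hω j hj)
              · exact ⟨-X, hn X hX, by simp [a1], fun f hf => by simp [a2 f hf]⟩
              · exact ⟨X, hX, a1, a2⟩
            refine ⟨X, ⟨hX, ⟨j, a1 ▸ hω j hj⟩, fun e he => a2 e fun h => he (h ▸ hj),
              fun e he => ?_⟩, fun k hk hkj => absurd (h1 k hk) hkj⟩
            rw [h1 e he, a1]
            have := hω j hj
            revert this; cases ω j <;> decide
          · obtain ⟨Z, hZ, a1, a2, a3, a4⟩ := ih _ (Finset.erase_ssubset hj)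
              (fun e he => hω e (Finset.mem_of_mem_erase he)) h0
            refine ⟨Z, ⟨hZ, a1, fun e he => a2 e fun h => he (Finset.mem_of_mem_erase h),
              fun e he => ?_⟩, fun k hk hkj => a4 k (Finset.mem_erase.2 ⟨hkj, hk⟩)⟩
            by_cases hej : e = j
            · rw [hej, a2 j (Finset.notMem_erase _ _)]; exact z0 (hω j hj)
            · exact a3 e (Finset.mem_erase.2 ⟨hej, he⟩)
        obtain ⟨Z, hZ, a⟩ := this
        refine ⟨_, ⟨Z, hZ, rfl⟩, ?_, by simpa using a⟩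
        by_contra h3
        refine hcon ⟨Z, hZ.1, hZ.2.1, hZ.2.2.1, hZ.2.2.2, fun k hk => ?_⟩
        by_cases hkj : k = j
        · simpa [hkj] using h3
        · exact a k hk hkj) with ⟨_, ⟨Z, hZ, rfl⟩, a⟩ | ⟨_, ⟨Z, hZ, rfl⟩, a⟩
    · exact hcon ⟨Z, hZ.1, hZ.2.1, hZ.2.2.1, hZ.2.2.2, by simpa using a⟩
    · refine h ⟨Z, hZ.1, hZ.2.1, fun e he => ?_⟩
      have heI : e ∈ I := by
        by_contra h4
        exact he (hZ.2.2.1 e h4)
      have d1 := hZ.2.2.2 e heI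
      have d2 : Z (s e) = ω e := by simpa using a e heI
      have d3 := hω e heI
      rw [d2]
      revert he d1 d3; cases Z (t e) <;> cases ω e <;> decide

end main

theorem key [Fintype E] [DecidableEq E] (U V : Set (E → SignType)) (c1 : CompC U) (c2 : CompC V)
    (e1 : ElimC U) (e2 : ElimC V) (n1 : ∀ X ∈ U, -X ∈ U) (n2 : ∀ X ∈ V, -X ∈ V)
    (z1 : 0 ∈ U) (z2 : 0 ∈ V) (A : Finset E)
    (f1 : ∀ e ∈ A, ∃ X ∈ U, X e = 1 ∧ ∀ f ∈ A, f ≠ e → X f = 0)
    (f2 : ∀ e, e ∉ A → ∃ X ∈ V, X e = 1 ∧ ∀ f, f ∉ A → f ≠ e → X f = 0)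
    (Y : E → SignType) (hY : Y ≠ 0) (o1 : ∀ X ∈ U, Orth X Y) (o2 : ∀ X ∈ V, Orth X Y) :
    ∃ X, X ≠ 0 ∧ X ∈ U ∧ X ∈ V := by
  let D : Set (E ⊕ E → SignType) := {Z | (fun e => Z (.inl e)) ∈ U ∧ (fun e => Z (.inr e)) ∈ V}
  let t : E → E ⊕ E := fun e => if e ∈ A then .inl e else .inr e
  let s : E → E ⊕ E := fun e => if e ∈ A then .inr e else .inl e
  have hc : CompC D := fun X hX Z hZ => ⟨c1 _ hX.1 _ hZ.1, c2 _ hX.2 _ hZ.2⟩
  have hn : ∀ X ∈ D, -X ∈ D := fun X hX => ⟨n1 _ hX.1, n2 _ hX.2⟩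
  have he : ElimC D := by
    rintro X hX Z hZ (e | e) h1 h2
    · obtain ⟨W, hW, a1, a2⟩ := e1 _ hX.1 _ hZ.1 e h1 h2
      exact ⟨Sum.elim W fun e => cmp X Z (.inr e), ⟨hW, c2 _ hX.2 _ hZ.2⟩, a1, by
        rintro (f | f) hf
        exacts [a2 f hf, rfl]⟩
    · obtain ⟨W, hW, a1, a2⟩ := e2 _ hX.2 _ hZ.2 e h1 h2
      exact ⟨Sum.elim (fun e => cmp X Z (.inl e)) W, ⟨c1 _ hX.1 _ hZ.1, hW⟩, a1, by
        rintro (f | f) hf
        exacts [rfl, a2 f hf]⟩
  have hf : ∀ e, ∃ X ∈ D, X (t e) = 1 ∧ ∀ f, f ≠ e → X (t f) = 0 := by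
    intro e
    by_cases h : e ∈ A
    · obtain ⟨X, hX, a1, a2⟩ := f1 e h
      refine ⟨Sum.elim X 0, ⟨hX, z2⟩, by simp [t, h, a1], fun f hf => ?_⟩
      by_cases h' : f ∈ A
      · simp [t, h', a2 f h' hf]
      · simp [t, h']
    · obtain ⟨X, hX, a1, a2⟩ := f2 e h
      refine ⟨Sum.elim 0 X, ⟨z1, hX⟩, by simp [t, h, a1], fun f hf => ?_⟩
      by_cases h' : f ∈ A
      · simp [t, h']
      · simp [t, h', a2 f h' hf]
  by_cases h : ∃ Z ∈ D, (∃ e, Z (t e) ≠ 0) ∧ ∀ e, Z (t e) ≠ 0 → Z (s e) = Z (t e)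
  · obtain ⟨Z, hZ, ⟨e, a1⟩, a2⟩ := common D t s hc hn hf h
    have a3 : ∀ e, Z (.inl e) = Z (.inr e) := fun e => by
      have := a2 e
      by_cases h' : e ∈ A <;> simp only [s, t, h', if_true, if_false] at this
      exacts [this.symm, this]
    refine ⟨fun e => Z (.inl e), fun h0 => a1 ?_, hZ.1, ?_⟩
    · have := congrFun h0 e
      by_cases h' : e ∈ A <;> simp only [t, h', if_true, if_false]
      exacts [this, a3 e ▸ this]
    · simp only [a3]; exact hZ.2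
  · exfalso
    obtain ⟨Z, hZ, ⟨e, a1⟩, a2, a3, a4⟩ := star D t s hc he hn hf
      (fun e => if e ∈ A then Y e else -Y e) h (Finset.univ.filter fun e => Y e ≠ 0)
      (fun e he => by
        have := (Finset.mem_filter.1 he).2
        split_ifs <;> simpa using this) (by
        obtain ⟨e, he⟩ := Function.ne_iff.1 hY
        exact ⟨e, by simpa using he⟩)
    simp only [Finset.mem_filter, Finset.mem_univ, true_and] at a2 a3 a4
    have hYe : Y e ≠ 0 := fun h0 => a1 (a2 e (by simpa using h0))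
    have b1 := (o1 _ hZ.1).zero (-1) (by decide) (fun f => by
      by_cases h0 : Y f = 0
      · simp [h0]
      · have d1 := a3 f h0
        have d2 := a4 f h0
        by_cases h' : f ∈ A <;> simp only [s, t, h', if_true, if_false] at d1 d2
        · revert d1 h0; cases Z (.inl f) <;> cases Y f <;> decide
        · revert d2 h0; cases Z (.inl f) <;> cases Y f <;> decide) e
    have b2 := (o2 _ hZ.2).zero 1 (by decide) (fun f => by
      by_cases h0 : Y f = 0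
      · simp [h0]
      · have d1 := a3 f h0
        have d2 := a4 f h0
        by_cases h' : f ∈ A <;> simp only [s, t, h', if_true, if_false] at d1 d2
        · revert d2 h0; cases Z (.inr f) <;> cases Y f <;> decide
        · revert d1 h0; cases Z (.inr f) <;> cases Y f <;> decide) e
    by_cases h' : e ∈ A <;> simp only [t, h', if_true, if_false] at a1
    · exact mul_ne_zero a1 hYe b1
    · exact mul_ne_zero a1 hYe b2

end Pool.Agent.H.MP_b7b1cf_co
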