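import Pool.Agent.H.MP_b7b1cf_co.A

set_option autoImplicit false

namespace Pool.Agent.H.MP_b7b1cf_co

variable {E : Type} [Fintype E] [DecidableEq E]

def Vc (L : Set (E → SignType)) : Set (E → SignType) := {Y | ∀ X ∈ L, Orth X Y}

lemma paint (L : Set (E → SignType)) (hc : CompC L) (he : ElimC L) (hn : ∀ X ∈ L, -X ∈ L)
    (σ : E → SignType) (f : E) (hf : σ f ≠ 0) (C : Finset E) : f ∉ C →
    (¬ ∃ X ∈ L, X f = σ f ∧ ∀ g ∈ C, (σ g = 0 → X g = 0) ∧ (σ g ≠ 0 → X g ≠ -σ g)) →
    ∃ Y ∈ Vc L, Y f = σ f ∧ (∀ g, g ≠ f → g ∉ C → Y g = 0) ∧ ∀ g, σ g ≠ 0 → Y g ≠ -σ g := by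
  induction C using Finset.strongInduction with
  | H C ih =>
    intro hfC hQ
    by_cases hmin : ∃ g ∈ C, ¬ ∃ X ∈ L, X f = σ f ∧
        ∀ k ∈ C.erase g, (σ k = 0 → X k = 0) ∧ (σ k ≠ 0 → X k ≠ -σ k)
    · obtain ⟨g, hg, h⟩ := hmin
      obtain ⟨Y, hY, a1, a2, a3⟩ := ih _ (Finset.erase_ssubset hg)
        (fun h => hfC (Finset.mem_of_mem_erase h)) h
      exact ⟨Y, hY, a1, fun k h1 h2 => a2 k h1 fun h => h2 (Finset.mem_of_mem_erase h), a3⟩
    push Not at hmin
    choose! W hW w1 w2 using hmin
    let Y : E → SignType := fun g => if g = f then σ f else if g ∈ C then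
      (if σ g = 0 then -W g g else σ g) else 0
    have yf : Y f = σ f := if_pos rfl
    have yC : ∀ g ∈ C, Y g = if σ g = 0 then -W g g else σ g := fun g hg => by
      simp only [Y]; rw [if_neg (fun e : g = f => hfC (e ▸ hg)), if_pos hg]
    have w0 : ∀ g ∈ C, σ g = 0 → W g g ≠ 0 := fun g hg h0 h1 => hQ ⟨W g, hW g hg, w1 g hg,
      fun k hk => by
        by_cases hkg : k = g
        · subst hkg; exact ⟨fun _ => h1, fun h => absurd h0 h⟩
        · exact w2 g hg k (Finset.mem_erase.2 ⟨hkg, hk⟩)⟩
    have main : ∀ m, ∀ X ∈ L, (C.filter fun g => σ g = 0 ∧ X g ≠ 0).card = m →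
        (∀ e, X e * Y e ≠ -1) → ∀ e, X e * Y e = 0 := by
      intro m
      induction m using Nat.strong_induction_on with
      | _ m ihm =>
        intro X hX hm hp
        have p1 : X f ≠ -σ f := by
          have := hp f
          rw [yf] at this
          revert this hf; cases X f <;> cases σ f <;> decide
        have p2 : ∀ g ∈ C, σ g ≠ 0 → X g ≠ -σ g := fun g hg h0 => by
          have := hp g
          rw [yC g hg, if_neg h0] at this
          revert this h0; cases X g <;> cases σ g <;> decide
        by_cases h1 : ∃ g ∈ C, σ g = 0 ∧ X g ≠ 0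
        · exfalso
          obtain ⟨g, hg, h0, h2⟩ := h1
          have h3 : X g = -W g g := by
            have := hp g
            have h4 := w0 g hg h0
            rw [yC g hg, if_pos h0] at this
            revert this h2 h4; cases X g <;> cases W g g <;> decide
          obtain ⟨Z, hZ, z1, z2⟩ := he X hX _ (hW g hg) g h2 h3
          have zf : Z f = σ f := by
            have h5 := w1 g hg
            rw [z2 f (by rw [h5]; exact Or.inr p1), cmp, h5]
            revert p1 hf; cases X f <;> cases σ f <;> decide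
          have zk : ∀ k ∈ C, k ≠ g → (σ k = 0 → Z k = X k) ∧ (σ k ≠ 0 → Z k ≠ -σ k) := by
            intro k hk hkg
            have d := w2 g hg k (Finset.mem_erase.2 ⟨hkg, hk⟩)
            constructor
            · intro h5
              rw [z2 k (by rw [d.1 h5]; cases X k <;> decide), cmp, d.1 h5]
              split_ifs with h6 <;> simp [*]
            · intro h5
              have d1 := d.2 h5
              have d2 := p2 k hk h5
              rw [z2 k (by revert d1 d2 h5; cases X k <;> cases W g k <;> cases σ k <;> decide), cmp]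
              split_ifs <;> assumption
          have := ihm _ ?_ Z hZ rfl (fun e => ?_) f
          · rw [zf, yf] at this
            exact hf (mul_self_eq_zero.1 this)
          · rw [← hm]
            refine Finset.card_lt_card ⟨fun k hk => ?_, fun h5 => ?_⟩
            · rw [Finset.mem_filter] at hk ⊢
              have hkg : k ≠ g := fun e => hk.2.2 (e ▸ z1)
              exact ⟨hk.1, hk.2.1, (zk k hk.1 hkg).1 hk.2.1 ▸ hk.2.2⟩
            · exact (Finset.mem_filter.1 (h5 (Finset.mem_filter.2 ⟨hg, h0, h2⟩))).2.2 z1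
          · by_cases hef : e = f
            · rw [hef, zf, yf]; cases σ f <;> decide
            by_cases heC : e ∈ C
            · by_cases heg : e = g
              · rw [heg, z1]; simp
              by_cases h6 : σ e = 0
              · rw [(zk e heC heg).1 h6]; exact hp e
              · have := (zk e heC heg).2 h6
                rw [yC e heC, if_neg h6]
                revert this; cases Z e <;> cases σ e <;> decide
            · simp [Y, hef, heC]
        · push Not at h1
          have p3 : X f = 0 := by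
            by_contra h2
            refine hQ ⟨X, hX, ?_, fun g hg => ⟨h1 g hg, p2 g hg⟩⟩
            revert h2 p1 hf; cases X f <;> cases σ f <;> decide
          intro e
          by_cases hef : e = f
          · simp [hef, p3]
          by_cases heC : e ∈ C
          · by_contra h2
            have h3 : X e ≠ 0 := left_ne_zero_of_mul h2
            refine hQ ⟨_, hc X hX _ (hW e heC), by simp [cmp, p3, w1 e heC], fun k hk => ?_⟩
            by_cases hke : k = e
            · subst hke
              simp only [cmp, if_neg h3]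
              exact ⟨h1 k hk, p2 k hk⟩
            · have d := w2 e heC k (Finset.mem_erase.2 ⟨hke, hk⟩)
              simp only [cmp]
              split_ifs
              · exact d
              · exact ⟨h1 k hk, p2 k hk⟩
          · simp [Y, hef, heC]
    refine ⟨Y, fun X hX => orth_of fun τ hτ h => ?_, yf, fun g h1 h2 => by simp [Y, h1, h2],
      fun g h0 => ?_⟩
    · cases τ
      · exact absurd rfl hτ
      · exact main _ X hX rfl h
      · intro e
        have := main _ (-X) (hn X hX) rfl (fun e => by
          have := h e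
          simp only [Pi.neg_apply]
          revert this; cases X e <;> cases Y e <;> decide) e
        simpa using this
    · simp only [Y]
      split_ifs with h1 h2
      · rw [h1]; revert hf; cases σ f <;> decide
      · revert h0; cases σ g <;> decide
      · exact z0 h0

lemma Vc_zero (L : Set (E → SignType)) : 0 ∈ Vc L := fun X _ => Or.inl fun e => by simp

lemma Vc_neg (L : Set (E → SignType)) : ∀ Y ∈ Vc L, -Y ∈ Vc L := fun Y hY X hX => by
  rcases hY X hX with h | ⟨e, f, h1, h2⟩
  · exact Or.inl fun e => by simp [h e]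
  · exact Or.inr ⟨f, e, by simp [h2], by simp [h1]⟩

lemma Vc_comp (L : Set (E → SignType)) : CompC (Vc L) := fun Y hY Z hZ X hX => by
  rcases hY X hX with h | ⟨e, f, h1, h2⟩
  · have : ∀ e, X e * cmp Y Z e = X e * Z e := fun e => by
      have := h e
      simp only [cmp]
      revert this; cases X e <;> cases Y e <;> cases Z e <;> decide
    simpa only [Orth, this] using hZ X hX
  · have a1 : Y e ≠ 0 := fun h => by simp [h] at h1
    have a2 : Y f ≠ 0 := fun h => by simp [h] at h2
    exact Or.inr ⟨e, f, by simp [cmp, a1, h1], by simp [cmp, a2, h2]⟩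

lemma Vc_elim (L : Set (E → SignType)) (hc : CompC L) (he : ElimC L) (hn : ∀ X ∈ L, -X ∈ L) :
    ElimC (Vc L) := by
  intro Y hY Y' hY' e h1 h2
  let ns : E → Prop := fun f => Y f = 0 ∨ Y f ≠ -Y' f
  let σ : E → SignType := fun f => if ns f then cmp Y Y' f else 0
  have hne : ¬ ns e := by simp [ns, h1, ← h2]
  have one : ∀ f, σ f ≠ 0 → ∃ Z ∈ Vc L, Z f = σ f ∧ Z e = 0 ∧ (∀ g, ns g → σ g = 0 → Z g = 0) ∧
      ∀ g, σ g ≠ 0 → Z g ≠ -σ g := by
    intro f hf
    have hfe : e ≠ f := fun h => hf (by simp [σ, ← h, hne])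
    obtain ⟨Z, hZ, a1, a2, a3⟩ := paint L hc he hn σ f hf
      (Finset.univ.filter fun g => g ≠ f ∧ g ≠ e ∧ (¬ ns g ∨ σ g ≠ 0)) (by simp) (by
        rintro ⟨X, hX, b1, b2⟩
        simp only [Finset.mem_filter, Finset.mem_univ, true_and] at b2
        have c : ∀ g, g ≠ e → X g * Y g ≠ -1 ∧ X g * Y' g ≠ -1 := by
          intro g hg
          by_cases hs : ns g
          · have d0 : σ g = cmp Y Y' g := if_pos hs
            have d1 : σ g ≠ 0 → X g ≠ -σ g := fun h => by
              by_cases hgf : g = f
              · rw [hgf, b1]; revert hf; cases σ f <;> decide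
              · exact (b2 g ⟨hgf, hg, Or.inr h⟩).2 h
            simp only [d0, cmp, ns] at d1 hs
            revert d1 hs; cases X g <;> cases Y g <;> cases Y' g <;> decide
          · have d0 : σ g = 0 := if_neg hs
            have hgf : g ≠ f := fun h => hf (h ▸ d0)
            simp [(b2 g ⟨hgf, hg, Or.inl hs⟩).1 d0]
        have c0 : X e = 0 := by
          by_cases d : X e * Y e = -1
          · have := (hY' X hX).zero (-1) (by decide) (fun g => by
              by_cases hg : g = e
              · rw [hg]; revert d h2; cases X e <;> cases Y e <;> cases Y' e <;> decide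
              · exact (c g hg).2) e
            revert this h1 h2; cases X e <;> cases Y e <;> cases Y' e <;> decide
          · have := (hY X hX).zero (-1) (by decide) (fun g => by
              by_cases hg : g = e
              · rwa [hg]
              · exact (c g hg).1) e
            exact (mul_eq_zero.1 this).resolve_right h1
        have c1 := (hY X hX).zero (-1) (by decide) (fun g => by
          by_cases hg : g = e
          · simp [hg, c0]
          · exact (c g hg).1) f
        have c2 := (hY' X hX).zero (-1) (by decide) (fun g => by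
          by_cases hg : g = e
          · simp [hg, c0]
          · exact (c g hg).2) f
        rw [b1] at c1 c2
        have d1 := (mul_eq_zero.1 c1).resolve_left hf
        have d2 := (mul_eq_zero.1 c2).resolve_left hf
        exact hf (by simp [σ, cmp, d1, d2]))
    refine ⟨Z, hZ, a1, a2 e hfe (by simp), fun g h3 h4 => a2 g (fun h => hf (h ▸ h4)) ?_, a3⟩
    simp [h3, h4]
  have all : ∀ J : Finset E, ∃ Z ∈ Vc L, (∀ f ∈ J, σ f ≠ 0 → Z f = σ f) ∧ Z e = 0 ∧
      (∀ g, ns g → σ g = 0 → Z g = 0) ∧ ∀ g, σ g ≠ 0 → Z g ≠ -σ g := by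
    intro J
    induction J using Finset.induction_on with
    | empty => exact ⟨0, Vc_zero L, by simp, rfl, fun _ _ _ => rfl, fun g h => z0 h⟩
    | insert f J _ ih =>
      obtain ⟨Z, hZ, a1, a2, a3, a4⟩ := ih
      by_cases hf : σ f = 0
      · refine ⟨Z, hZ, fun g hg h => ?_, a2, a3, a4⟩
        rcases Finset.mem_insert.1 hg with rfl | hg
        · exact absurd hf h
        · exact a1 g hg h
      · obtain ⟨W, hW, b1, b2, b3, b4⟩ := one f hf
        refine ⟨_, Vc_comp L W hW Z hZ, fun g hg h => ?_, by simp [cmp, a2, b2],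
          fun g h h' => by simp [cmp, a3 g h h', b3 g h h'], fun g h => ?_⟩
        · rcases Finset.mem_insert.1 hg with rfl | hg
          · simp [cmp, b1, h]
          · have := b4 g h
            simp only [cmp, a1 g hg h]
            revert this h; cases W g <;> cases σ g <;> decide
        · simp only [cmp]
          split_ifs
          · exact a4 g h
          · exact b4 g h
  obtain ⟨Z, hZ, a1, a2, a3, -⟩ := all Finset.univ
  refine ⟨Z, hZ, a2, fun f hf => ?_⟩
  have d0 : σ f = cmp Y Y' f := if_pos hf
  rw [← d0]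
  by_cases h : σ f = 0
  · rw [h, a3 f hf h]
  · exact a1 f (Finset.mem_univ _) h

lemma fco (L : Set (E → SignType)) (hc : CompC L) (he : ElimC L) (hn : ∀ X ∈ L, -X ∈ L)
    (A : Finset E) (hA : ∀ Y ∈ Vc L, Y ≠ 0 → ∃ e, Y e ≠ 0 ∧ e ∉ A) (e : E) (h : e ∈ A) :
    ∃ X ∈ L, X e = 1 ∧ ∀ f ∈ A, f ≠ e → X f = 0 := by
  by_contra hcon
  obtain ⟨Y, hY, a1, a2, -⟩ := paint L hc he hn (fun g => if g = e then 1 else 0) e (by simp)
    (A.erase e) (by simp) (by
      rintro ⟨X, hX, b1, b2⟩
      exact hcon ⟨X, hX, by simpa using b1, fun f hf hfe =>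
        (b2 f (Finset.mem_erase.2 ⟨hfe, hf⟩)).1 (by simp [hfe])⟩)
  obtain ⟨g, h1, h2⟩ := hA Y hY (fun h0 => by simp [h0] at a1)
  exact h1 (a2 g (fun h3 => h2 (h3 ▸ h)) fun h3 => h2 (Finset.mem_of_mem_erase h3))

lemma fci (L : Set (E → SignType)) (A : Finset E)
    (hA : ∀ Y ∈ Vc L, Y ≠ 0 → ∃ e, Y e ≠ 0 ∧ e ∉ A)
    (hm : ∀ J : Finset E, (∀ Y ∈ Vc L, Y ≠ 0 → ∃ e, Y e ≠ 0 ∧ e ∉ J) → J.card ≤ A.card)
    (e : E) (h : e ∉ A) : ∃ Y ∈ Vc L, Y e = 1 ∧ ∀ f, f ∉ A → f ≠ e → Y f = 0 := by
  have := mt (hm (insert e A)) (by rw [Finset.card_insert_of_notMem h]; omega)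
  push Not at this
  obtain ⟨Y, hY, h0, h1⟩ := this
  have h2 : ∀ f, f ∉ A → f ≠ e → Y f = 0 := fun f h3 h4 => by
    by_contra h5
    rcases Finset.mem_insert.1 (h1 f h5) with h6 | h6
    exacts [h4 h6, h3 h6]
  obtain ⟨g, h3, h4⟩ := hA Y hY h0
  have h5 : g = e := by
    by_contra h6
    exact h3 (h2 g h4 h6)
  subst h5
  rcases hs : Y g with _ | _ | _
  · exact absurd hs h3
  · exact ⟨-Y, Vc_neg L Y hY, by simp [hs], fun f a b => by simp [h2 f a b]⟩
  · exact ⟨Y, hY, hs, h2⟩

end Pool.Agent.H.MP_b7b1cf_co
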